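import Pool.Agent.helper73.TC.YDefs
import Pool.Agent.helper74.TC.Refl

/-!
# Soundness of the parity checker (TY-1)

Used for `MP_a50e43_gt` (tight polyhedral embedding of complex projective 3-space).
-/

set_option autoImplicit false
set_option linter.all false
open Topology

noncomputable section
namespace Pool.Agent.helper73.TC

namespace Y1

/-! ### bits -/

theorem bit_lt {S : ℕ} (hS : S < 1048576) {i : ℕ} (h : S.testBit i = true) : i < 20 := by
  by_contra hi
  have h1 : S < 2 ^ i := lt_of_lt_of_le hS (by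
    calc 1048576 = 2 ^ 20 := by norm_num
      _ ≤ 2 ^ i := Nat.pow_le_pow_right (by norm_num) (by omega))
  rw [Nat.testBit_lt_two_pow h1] at h
  exact absurd h (by decide)

theorem exists_bit {S : ℕ} (h : S ≠ 0) : ∃ i, S.testBit i = true := by
  by_contra hc
  apply h
  apply Nat.eq_of_testBit_eq
  intro i
  rw [Nat.zero_testBit]
  by_contra hi
  exact hc ⟨i, by simpa using hi⟩

/-- a mask with at least two bits has a bit different from `v` -/
theorem two_bits {m : ℕ} (h : 0 < Nat.land m (Nat.pred m)) (v : ℕ) :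
    ∃ i, i ≠ v ∧ m.testBit i = true := by
  by_contra hc
  have hc' : ∀ i, i ≠ v → m.testBit i = false := by
    intro i hi
    by_contra h2
    exact hc ⟨i, hi, by simpa using h2⟩
  by_cases hv : m.testBit v = true
  · have hm : m = 2 ^ v := by
      apply Nat.eq_of_testBit_eq
      intro i
      rw [Nat.testBit_two_pow]
      by_cases hi : i = v
      · subst hi; simp [hv]
      · rw [hc' i hi]; simp; exact fun h => hi h.symm
    apply Nat.lt_irrefl 0
    have h3 : Nat.land m (Nat.pred m) = 0 := by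
      apply Nat.eq_of_testBit_eq
      intro i
      show (m &&& (m - 1)).testBit i = _
      rw [Nat.testBit_and, Nat.zero_testBit]
      by_cases hi : i = v
      · subst hi
        rw [hm, Nat.testBit_two_pow_sub_one]
        simp
      · rw [hc' i hi]; simp
    rwa [h3] at h
  · have hm : m = 0 := by
      apply Nat.eq_of_testBit_eq
      intro i
      rw [Nat.zero_testBit]
      by_cases hi : i = v
      · subst hi; simpa using hv
      · exact hc' i hi
    rw [hm] at h
    exact absurd h (by decide)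

/-- a mask with `m && (m - 1) = 0` is zero or a power of two -/
theorem one_bit {m : ℕ} (h : Nat.land m (Nat.pred m) = 0) {i j : ℕ} (hi : m.testBit i = true)
    (hj : m.testBit j = true) : i = j := by
  wlog hij : j ≤ i generalizing i j
  · exact (this hj hi (by omega)).symm
  by_contra hne
  have hlt : j < i := by omega
  -- then bit `i` of `m - 1` is set
  have h1 : (m &&& (m - 1)).testBit i = true := by
    rw [Nat.testBit_and, hi, Bool.true_and]
    have h2 : 2 ^ j ≤ m % 2 ^ i := by
      have h3 : (m % 2 ^ i).testBit j = true := by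
        rw [Nat.testBit_mod_two_pow]
        simp [hlt, hj]
      exact Nat.ge_two_pow_of_testBit h3
    have h4 : 0 < m % 2 ^ i := lt_of_lt_of_le (by positivity) h2
    have h5 : m = 2 ^ i * (m / 2 ^ i) + m % 2 ^ i := (Nat.div_add_mod m (2 ^ i)).symm
    have h6 : m % 2 ^ i < 2 ^ i := Nat.mod_lt _ (by positivity)
    have h7 : m - 1 = 2 ^ i * (m / 2 ^ i) + (m % 2 ^ i - 1) := by omega
    have h8 : (m - 1) / 2 ^ i = m / 2 ^ i := by
      have h9 : m % 2 ^ i - 1 < 2 ^ i := lt_of_le_of_lt (Nat.sub_le _ _) h6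
      rw [h7, Nat.mul_add_div (by positivity), Nat.div_eq_of_lt h9, Nat.add_zero]
    rw [Nat.testBit_eq_decide_div_mod_eq] at hi ⊢
    rw [h8]
    exact hi
  rw [show m &&& (m - 1) = Nat.land m (Nat.pred m) from rfl, h, Nat.zero_testBit] at h1
  exact absurd h1 (by decide)

theorem xor_pow_bit {S q : ℕ} (hq : S.testBit q = true) (i : ℕ) :
    (Nat.xor S (Nat.pow 2 q)).testBit i = true ↔ S.testBit i = true ∧ i ≠ q := by
  show (S ^^^ 2 ^ q).testBit i = true ↔ _
  rw [Nat.testBit_xor, Nat.testBit_two_pow]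
  by_cases h : q = i
  · subst h; simp [hq]
  · simp [h]; intro _ h'; exact h h'.symm

theorem xor_land_bit (A X i : ℕ) :
    (Nat.xor A (Nat.land A X)).testBit i = true ↔ A.testBit i = true ∧ X.testBit i = false := by
  show (A ^^^ (A &&& X)).testBit i = true ↔ _
  rw [Nat.testBit_xor, Nat.testBit_and]
  cases A.testBit i <;> cases X.testBit i <;> simp

theorem xor_pow_lt {S q : ℕ} (hS : S < 1048576) (hq : S.testBit q = true) :
    Nat.xor S (Nat.pow 2 q) < 1048576 := by
  have h := bit_lt hS hq
  have h1 : (1048576 : ℕ) = 2 ^ 20 := by norm_num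
  rw [h1] at hS ⊢
  exact Nat.xor_lt_two_pow hS (Nat.pow_lt_pow_right (by norm_num) h)

theorem xor_land_lt {A X : ℕ} (hA : A < 1048576) : Nat.xor A (Nat.land A X) < 1048576 := by
  have h1 : (1048576 : ℕ) = 2 ^ 20 := by norm_num
  rw [h1] at hA ⊢
  exact Nat.xor_lt_two_pow hA (lt_of_le_of_lt (Nat.and_le_left) hA)

theorem land_eq_zero_iff (m X : ℕ) :
    Nat.land m X = 0 ↔ ∀ i, m.testBit i = true → X.testBit i = false := by
  constructor
  · intro h i hi
    have h1 : (m &&& X).testBit i = false := by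
      rw [show m &&& X = Nat.land m X from rfl, h, Nat.zero_testBit]
    rw [Nat.testBit_and, hi, Bool.true_and] at h1
    exact h1
  · intro h
    apply Nat.eq_of_testBit_eq
    intro i
    show (m &&& X).testBit i = _
    rw [Nat.testBit_and, Nat.zero_testBit]
    cases hm : m.testBit i with
    | false => rfl
    | true => rw [h i hm]; rfl

theorem land_eq_iff (m X : ℕ) :
    Nat.land m X = m ↔ ∀ i, m.testBit i = true → X.testBit i = true := by
  constructor
  · intro h i hi
    have h1 : (m &&& X).testBit i = true := by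
      rw [show m &&& X = Nat.land m X from rfl, h, hi]
    rw [Nat.testBit_and, hi, Bool.true_and] at h1
    exact h1
  · intro h
    apply Nat.eq_of_testBit_eq
    intro i
    show (m &&& X).testBit i = _
    rw [Nat.testBit_and]
    cases hm : m.testBit i with
    | false => rfl
    | true => rw [h i hm]; rfl

/-! ### the list loops -/

theorem filt_aux (S : ℕ) (N : List ℕ) : ∀ (acc : List ℕ) (k : List ℕ → Bool),
    Pa.filt S N acc k = true →
    ∃ N', k N' = true ∧ ∀ m, m ∈ N' ↔ m ∈ acc ∨ (m ∈ N ∧ Nat.land m S = m) := by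
  induction N with
  | nil =>
    intro acc k h
    exact ⟨acc, h, fun m => by simp⟩
  | cons a N ih =>
    intro acc k h
    have h' : @Bool.rec (fun _ => Bool) (Pa.filt S N acc k) (Pa.filt S N (a :: acc) k)
        (Nat.beq (Nat.land a S) a) = true := h
    rw [Ce.brec_iff] at h'
    by_cases hc : Nat.land a S = a
    · obtain ⟨N', h1, h2⟩ := ih _ _ (h'.1 ((Ce.beq_iff _ _).2 hc))
      refine ⟨N', h1, fun m => ?_⟩
      rw [h2 m, List.mem_cons, List.mem_cons]
      constructor
      · rintro ((rfl | h3) | ⟨h3, h4⟩)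
        · exact Or.inr ⟨Or.inl rfl, hc⟩
        · exact Or.inl h3
        · exact Or.inr ⟨Or.inr h3, h4⟩
      · rintro (h3 | ⟨rfl | h3, h4⟩)
        · exact Or.inl (Or.inr h3)
        · exact Or.inl (Or.inl rfl)
        · exact Or.inr ⟨h3, h4⟩
    · have hb : Nat.beq (Nat.land a S) a = false := by
        by_contra hb
        exact hc ((Ce.beq_iff _ _).1 (by simpa using hb))
      obtain ⟨N', h1, h2⟩ := ih _ _ (h'.2 hb)
      refine ⟨N', h1, fun m => ?_⟩
      rw [h2 m, List.mem_cons]
      constructor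
      · rintro (h3 | ⟨h3, h4⟩)
        · exact Or.inl h3
        · exact Or.inr ⟨Or.inr h3, h4⟩
      · rintro (h3 | ⟨rfl | h3, h4⟩)
        · exact Or.inl h3
        · exact absurd h4 hc
        · exact Or.inr ⟨h3, h4⟩

theorem orL_bit (N : List ℕ) (i : ℕ) :
    (Pa.orL N).testBit i = true ↔ ∃ m ∈ N, m.testBit i = true := by
  induction N with
  | nil =>
    show (0 : ℕ).testBit i = true ↔ _
    simp
  | cons a N ih =>
    show (a ||| Pa.orL N).testBit i = true ↔ _
    rw [Nat.testBit_or, Bool.or_eq_true, ih]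
    simp

theorem anySub_iff (m : ℕ) (P : List ℕ) :
    Pa.anySub m P = true ↔ ∃ p ∈ P, Nat.land p m = p := by
  induction P with
  | nil =>
    show false = true ↔ _
    simp
  | cons a P ih =>
    show @Bool.rec (fun _ => Bool) (Pa.anySub m P) true (Nat.beq (Nat.land a m) a) = true ↔ _
    rw [Ce.brec_iff]
    by_cases hc : Nat.land a m = a
    · have hb : Nat.beq (Nat.land a m) a = true := (Ce.beq_iff _ _).2 hc
      rw [hb]
      constructor
      · intro _
        exact ⟨a, by simp, hc⟩
      · intro _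
        exact ⟨fun _ => rfl, fun h => absurd h (by decide)⟩
    · have hb : Nat.beq (Nat.land a m) a = false := by
        by_contra hb
        exact hc ((Ce.beq_iff _ _).1 (by simpa using hb))
      rw [hb]
      constructor
      · rintro ⟨-, h⟩
        obtain ⟨p, h1, h2⟩ := ih.1 (h rfl)
        exact ⟨p, by simp [h1], h2⟩
      · rintro ⟨p, h1, h2⟩
        refine ⟨fun h => absurd h (by decide), fun _ => ih.2 ⟨p, ?_, h2⟩⟩
        rcases List.mem_cons.1 h1 with rfl | h3
        · exact absurd h2 hc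
        · exact h3

theorem cleanP_aux (X : ℕ) (P : List ℕ) : ∀ (acc : List ℕ) (k : List ℕ → Bool),
    Pa.cleanP X P acc k = true →
    ∃ N', k N' = true ∧ ∀ m, m ∈ N' ↔ m ∈ acc ∨ (m ∈ P ∧ Nat.land m X = 0) := by
  induction P with
  | nil =>
    intro acc k h
    exact ⟨acc, h, fun m => by simp⟩
  | cons a N ih =>
    intro acc k h
    have h' : @Bool.rec (fun _ => Bool) (Pa.cleanP X N acc k) (Pa.cleanP X N (a :: acc) k)
        (Nat.beq (Nat.land a X) 0) = true := h
    rw [Ce.brec_iff] at h'
    by_cases hc : Nat.land a X = 0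
    · obtain ⟨N', h1, h2⟩ := ih _ _ (h'.1 ((Ce.beq_iff _ _).2 hc))
      refine ⟨N', h1, fun m => ?_⟩
      rw [h2 m, List.mem_cons, List.mem_cons]
      constructor
      · rintro ((rfl | h3) | ⟨h3, h4⟩)
        · exact Or.inr ⟨Or.inl rfl, hc⟩
        · exact Or.inl h3
        · exact Or.inr ⟨Or.inr h3, h4⟩
      · rintro (h3 | ⟨rfl | h3, h4⟩)
        · exact Or.inl (Or.inr h3)
        · exact Or.inl (Or.inl rfl)
        · exact Or.inr ⟨h3, h4⟩
    · have hb : Nat.beq (Nat.land a X) 0 = false := by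
        by_contra hb
        exact hc ((Ce.beq_iff _ _).1 (by simpa using hb))
      obtain ⟨N', h1, h2⟩ := ih _ _ (h'.2 hb)
      refine ⟨N', h1, fun m => ?_⟩
      rw [h2 m, List.mem_cons]
      constructor
      · rintro (h3 | ⟨h3, h4⟩)
        · exact Or.inl h3
        · exact Or.inr ⟨Or.inr h3, h4⟩
      · rintro (h3 | ⟨rfl | h3, h4⟩)
        · exact Or.inl h3
        · exact absurd h4 hc
        · exact Or.inr ⟨h3, h4⟩

theorem cleanR_aux (X : ℕ) (P : List ℕ) (R : List ℕ) : ∀ (acc : List ℕ) (k : List ℕ → Bool),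
    Pa.cleanR X P R acc k = true →
    ∃ N', k N' = true ∧ ∀ m, m ∈ N' ↔
      m ∈ acc ∨ (m ∈ R ∧ Nat.land m X = 0 ∧ ¬ ∃ p ∈ P, Nat.land p m = p) := by
  induction R with
  | nil =>
    intro acc k h
    exact ⟨acc, h, fun m => by simp⟩
  | cons a N ih =>
    intro acc k h
    have h' : @Bool.rec (fun _ => Bool) (Pa.cleanR X P N acc k)
        (@Bool.rec (fun _ => Bool) (Pa.cleanR X P N (a :: acc) k) (Pa.cleanR X P N acc k)
          (Pa.anySub a P))
        (Nat.beq (Nat.land a X) 0) = true := h
    rw [Ce.brec_iff, Ce.brec_iff] at h'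
    by_cases hc : Nat.land a X = 0 ∧ ¬ ∃ p ∈ P, Nat.land p a = p
    · have ha : Pa.anySub a P = false := by
        by_contra hb
        exact hc.2 ((anySub_iff _ _).1 (by simpa using hb))
      obtain ⟨N', h1, h2⟩ := ih _ _ ((h'.1 ((Ce.beq_iff _ _).2 hc.1)).2 ha)
      refine ⟨N', h1, fun m => ?_⟩
      rw [h2 m, List.mem_cons, List.mem_cons]
      constructor
      · rintro ((rfl | h3) | ⟨h3, h4⟩)
        · exact Or.inr ⟨Or.inl rfl, hc⟩
        · exact Or.inl h3
        · exact Or.inr ⟨Or.inr h3, h4⟩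
      · rintro (h3 | ⟨rfl | h3, h4⟩)
        · exact Or.inl (Or.inr h3)
        · exact Or.inl (Or.inl rfl)
        · exact Or.inr ⟨h3, h4⟩
    · have hk : Pa.cleanR X P N acc k = true := by
        by_cases h0 : Nat.land a X = 0
        · have h3 : ∃ p ∈ P, Nat.land p a = p := by
            by_contra h4
            exact hc ⟨h0, h4⟩
          exact (h'.1 ((Ce.beq_iff _ _).2 h0)).1 ((anySub_iff _ _).2 h3)
        · have hb : Nat.beq (Nat.land a X) 0 = false := by
            by_contra hb
            exact h0 ((Ce.beq_iff _ _).1 (by simpa using hb))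
          exact h'.2 hb
      obtain ⟨N', h1, h2⟩ := ih _ _ hk
      refine ⟨N', h1, fun m => ?_⟩
      rw [h2 m, List.mem_cons]
      constructor
      · rintro (h3 | ⟨h3, h4⟩)
        · exact Or.inl h3
        · exact Or.inr ⟨Or.inr h3, h4⟩
      · rintro (h3 | ⟨rfl | h3, h4⟩)
        · exact Or.inl h3
        · exact absurd h4 hc
        · exact Or.inr ⟨h3, h4⟩

/-- one bit -/
def One (m : ℕ) : Prop := Nat.land m (Nat.pred m) = 0

theorem lnk_aux (q : ℕ) (N : List ℕ) : ∀ (X : ℕ) (P R : List ℕ) (k : ℕ → List ℕ → List ℕ → Bool),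
    Pa.lnk q N X P R k = true →
    ∃ X' P' R', k X' P' R' = true ∧
      (∀ i, X'.testBit i = true ↔ X.testBit i = true ∨ ∃ m ∈ N, m.testBit q = true ∧
        One (Nat.xor m (Nat.pow 2 q)) ∧ (Nat.xor m (Nat.pow 2 q)).testBit i = true) ∧
      (∀ p, p ∈ P' ↔ p ∈ P ∨ ∃ m ∈ N, m.testBit q = true ∧ p = Nat.xor m (Nat.pow 2 q) ∧ ¬ One p) ∧
      (∀ r, r ∈ R' ↔ r ∈ R ∨ (r ∈ N ∧ r.testBit q = false)) ∧
      (∀ m ∈ N, m.testBit q = true → Nat.xor m (Nat.pow 2 q) ≠ 0) := by
  induction N with
  | nil =>
    intro X P R k h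
    exact ⟨X, P, R, h, fun i => by simp, fun p => by simp, fun r => by simp, fun m hm => by simp at hm⟩
  | cons a N ih =>
    intro X P R k h
    have h' : @Bool.rec (fun _ => Bool)
        (Pa.lnk q N X P (a :: R) k)
        (@Bool.rec (fun _ => Bool)
          (Pa.lnk q N X (Nat.xor a (Nat.pow 2 q) :: P) R k)
          (@Bool.rec (fun _ => Bool)
            (Pa.lnk q N (Nat.lor X (Nat.xor a (Nat.pow 2 q))) P R k)
            false
            (Nat.beq (Nat.xor a (Nat.pow 2 q)) 0))
          (Nat.beq (Nat.land (Nat.xor a (Nat.pow 2 q)) (Nat.pred (Nat.xor a (Nat.pow 2 q)))) 0))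
        (Nat.testBit a q) = true := h
    rw [Ce.brec_iff, Ce.brec_iff, Ce.brec_iff] at h'
    by_cases hq : a.testBit q = true
    · have h1 := h'.1 hq
      by_cases ho : One (Nat.xor a (Nat.pow 2 q))
      · have h2 := h1.1 ((Ce.beq_iff _ _).2 ho)
        have h0 : Nat.xor a (Nat.pow 2 q) ≠ 0 := by
          intro h0
          exact absurd (h2.1 ((Ce.beq_iff _ _).2 h0)) (by decide)
        have hb : Nat.beq (Nat.xor a (Nat.pow 2 q)) 0 = false := by
          by_contra hb
          exact h0 ((Ce.beq_iff _ _).1 (by simpa using hb))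
        obtain ⟨X', P', R', g0, g1, g2, g3, g4⟩ := ih _ _ _ _ (h2.2 hb)
        refine ⟨X', P', R', g0, fun i => ?_, fun p => ?_, fun r => ?_, fun m hm => ?_⟩
        · rw [g1 i]
          have : (Nat.lor X (Nat.xor a (Nat.pow 2 q))).testBit i = true ↔
              X.testBit i = true ∨ (Nat.xor a (Nat.pow 2 q)).testBit i = true := by
            show (X ||| (Nat.xor a (Nat.pow 2 q))).testBit i = true ↔ _
            rw [Nat.testBit_or, Bool.or_eq_true]
          rw [this]
          constructor
          · rintro ((h3 | h3) | ⟨m, h3, h4⟩)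
            · exact Or.inl h3
            · exact Or.inr ⟨a, by simp, hq, ho, h3⟩
            · exact Or.inr ⟨m, by simp [h3], h4⟩
          · rintro (h3 | ⟨m, h3, h4, h5, h6⟩)
            · exact Or.inl (Or.inl h3)
            · rcases List.mem_cons.1 h3 with rfl | h7
              · exact Or.inl (Or.inr h6)
              · exact Or.inr ⟨m, h7, h4, h5, h6⟩
        · rw [g2 p]
          constructor
          · rintro (h3 | ⟨m, h3, h4⟩)
            · exact Or.inl h3
            · exact Or.inr ⟨m, by simp [h3], h4⟩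
          · rintro (h3 | ⟨m, h3, h4, h5, h6⟩)
            · exact Or.inl h3
            · rcases List.mem_cons.1 h3 with rfl | h7
              · rw [h5] at h6
                exact absurd ho h6
              · exact Or.inr ⟨m, h7, h4, h5, h6⟩
        · rw [g3 r]
          constructor
          · rintro (h3 | ⟨h3, h4⟩)
            · exact Or.inl h3
            · exact Or.inr ⟨by simp [h3], h4⟩
          · rintro (h3 | ⟨h3, h4⟩)
            · exact Or.inl h3
            · rcases List.mem_cons.1 h3 with rfl | h7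
              · rw [hq] at h4
                exact absurd h4 (by decide)
              · exact Or.inr ⟨h7, h4⟩
        · rcases List.mem_cons.1 hm with rfl | h7
          · intro _
            exact h0
          · exact g4 m h7
      · have hb : Nat.beq (Nat.land (Nat.xor a (Nat.pow 2 q)) (Nat.pred (Nat.xor a (Nat.pow 2 q)))) 0 = false := by
          by_contra hb
          exact ho ((Ce.beq_iff _ _).1 (by simpa using hb))
        have h0 : Nat.xor a (Nat.pow 2 q) ≠ 0 := by
          intro h0
          apply ho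
          rw [h0]
          rfl
        obtain ⟨X', P', R', g0, g1, g2, g3, g4⟩ := ih _ _ _ _ (h1.2 hb)
        refine ⟨X', P', R', g0, fun i => ?_, fun p => ?_, fun r => ?_, fun m hm => ?_⟩
        · rw [g1 i]
          constructor
          · rintro (h3 | ⟨m, h3, h4⟩)
            · exact Or.inl h3
            · exact Or.inr ⟨m, by simp [h3], h4⟩
          · rintro (h3 | ⟨m, h3, h4, h5, h6⟩)
            · exact Or.inl h3
            · rcases List.mem_cons.1 h3 with rfl | h7
              · exact absurd h5 ho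
              · exact Or.inr ⟨m, h7, h4, h5, h6⟩
        · rw [g2 p, List.mem_cons]
          constructor
          · rintro ((rfl | h3) | ⟨m, h3, h4⟩)
            · exact Or.inr ⟨a, by simp, hq, rfl, ho⟩
            · exact Or.inl h3
            · exact Or.inr ⟨m, by simp [h3], h4⟩
          · rintro (h3 | ⟨m, h3, h4, h5, h6⟩)
            · exact Or.inl (Or.inr h3)
            · rcases List.mem_cons.1 h3 with rfl | h7
              · exact Or.inl (Or.inl h5)
              · exact Or.inr ⟨m, h7, h4, h5, h6⟩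
        · rw [g3 r]
          constructor
          · rintro (h3 | ⟨h3, h4⟩)
            · exact Or.inl h3
            · exact Or.inr ⟨by simp [h3], h4⟩
          · rintro (h3 | ⟨h3, h4⟩)
            · exact Or.inl h3
            · rcases List.mem_cons.1 h3 with rfl | h7
              · rw [hq] at h4
                exact absurd h4 (by decide)
              · exact Or.inr ⟨h7, h4⟩
        · rcases List.mem_cons.1 hm with rfl | h7
          · intro _
            exact h0
          · exact g4 m h7
    · have hq' : a.testBit q = false := by simpa using hq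
      obtain ⟨X', P', R', g0, g1, g2, g3, g4⟩ := ih _ _ _ _ (h'.2 hq')
      refine ⟨X', P', R', g0, fun i => ?_, fun p => ?_, fun r => ?_, fun m hm => ?_⟩
      · rw [g1 i]
        constructor
        · rintro (h3 | ⟨m, h3, h4⟩)
          · exact Or.inl h3
          · exact Or.inr ⟨m, by simp [h3], h4⟩
        · rintro (h3 | ⟨m, h3, h4, h5, h6⟩)
          · exact Or.inl h3
          · rcases List.mem_cons.1 h3 with rfl | h7
            · exact absurd h4 hq
            · exact Or.inr ⟨m, h7, h4, h5, h6⟩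
      · rw [g2 p]
        constructor
        · rintro (h3 | ⟨m, h3, h4⟩)
          · exact Or.inl h3
          · exact Or.inr ⟨m, by simp [h3], h4⟩
        · rintro (h3 | ⟨m, h3, h4, h5, h6⟩)
          · exact Or.inl h3
          · rcases List.mem_cons.1 h3 with rfl | h7
            · exact absurd h4 hq
            · exact Or.inr ⟨m, h7, h4, h5, h6⟩
      · rw [g3 r, List.mem_cons]
        constructor
        · rintro ((rfl | h3) | ⟨h3, h4⟩)
          · exact Or.inr ⟨by simp, hq'⟩
          · exact Or.inl h3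
          · exact Or.inr ⟨by simp [h3], h4⟩
        · rintro (h3 | ⟨h3, h4⟩)
          · exact Or.inl (Or.inr h3)
          · rcases List.mem_cons.1 h3 with rfl | h7
            · exact Or.inl (Or.inl rfl)
            · exact Or.inr ⟨h7, h4⟩
      · rcases List.mem_cons.1 hm with rfl | h7
        · intro h8
          exact absurd h8 hq
        · exact g4 m h7

/-! ### complexes -/

theorem nfc_down (S : ℕ) (N : List ℕ) : DownClosed (nfc 20 S N) := by
  rintro s ⟨h1, h2⟩ t ht
  exact ⟨fun i hi => h1 i (ht hi), fun m hm h => h2 m hm fun i hi => ht (h i hi)⟩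

theorem single_mem {S : ℕ} {N : List ℕ} (hN : ∀ m ∈ N, MOK m) {v : Fin 20}
    (hv : S.testBit v = true) : ({v} : Finset (Fin 20)) ∈ nfc 20 S N := by
  refine ⟨fun i hi => ?_, fun m hm h => ?_⟩
  · rw [Finset.mem_singleton] at hi
    rw [hi]
    exact hv
  · obtain ⟨i, h1, h2⟩ := two_bits (hN m hm).2 v.1
    have h3 : i < 20 := bit_lt (hN m hm).1 h2
    have h4 := h ⟨i, h3⟩ h2
    rw [Finset.mem_singleton] at h4
    exact h1 (by rw [← h4])

theorem real_nonempty {C : Set (Finset (Fin 20))} {v : Fin 20} (h : {v} ∈ C) :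
    Nonempty (Real C) := by
  refine ⟨⟨⟨Pi.single v 1, single_mem_stdSimplex ℝ v⟩, ?_⟩⟩
  have h1 : (Finset.univ.filter fun u => 0 < (Pi.single v (1:ℝ) : Fin 20 → ℝ) u) = {v} := by
    ext u
    rw [Finset.mem_filter, Finset.mem_singleton]
    constructor
    · rintro ⟨-, h2⟩
      by_contra hne
      rw [Pi.single_eq_of_ne hne] at h2
      exact lt_irrefl _ h2
    · rintro rfl
      refine ⟨Finset.mem_univ _, ?_⟩
      rw [Pi.single_eq_same]
      norm_num
  show (Finset.univ.filter fun u => 0 < (Pi.single v (1:ℝ) : Fin 20 → ℝ) u) ∈ C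
  rw [h1]
  exact h

/-- a mask inside `insert q s` -/
theorem sub_insert {m : ℕ} {q : Fin 20} {s : Finset (Fin 20)} (hq : m.testBit q = true)
    (hqs : q ∉ s) : (∀ i : Fin 20, m.testBit i = true → i ∈ insert q s) ↔
      ∀ i : Fin 20, (Nat.xor m (Nat.pow 2 q)).testBit i = true → i ∈ s := by
  constructor
  · intro h i hi
    rw [xor_pow_bit hq] at hi
    rcases Finset.mem_insert.1 (h i hi.1) with h1 | h1
    · exact absurd (congrArg Fin.val h1) hi.2
    · exact h1
  · intro h i hi
    by_cases hiq : i = q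
    · rw [hiq]
      exact Finset.mem_insert_self _ _
    · exact Finset.mem_insert_of_mem (h i ((xor_pow_bit hq _).2 ⟨hi, fun h2 => hiq (Fin.ext h2)⟩))

theorem sub_insert' {m : ℕ} {q : Fin 20} {s : Finset (Fin 20)} (hq : m.testBit q = false) :
    (∀ i : Fin 20, m.testBit i = true → i ∈ insert q s) ↔
      ∀ i : Fin 20, m.testBit i = true → i ∈ s := by
  constructor
  · intro h i hi
    rcases Finset.mem_insert.1 (h i hi) with h1 | h1
    · rw [h1, hq] at hi
      exact absurd hi (by decide)
    · exact h1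
  · intro h i hi
    exact Finset.mem_insert_of_mem (h i hi)

theorem del_nfc {S : ℕ} {N R : List ℕ} {q : Fin 20} (hq : S.testBit q = true)
    (hR : ∀ r, r ∈ R ↔ (r ∈ N ∧ r.testBit q = false)) :
    del (nfc 20 S N) q = nfc 20 (Nat.xor S (Nat.pow 2 q)) R := by
  ext s
  constructor
  · rintro ⟨⟨h1, h2⟩, h3⟩
    refine ⟨fun i hi => (xor_pow_bit hq _).2 ⟨h1 i hi, ?_⟩, fun m hm => h2 m ((hR m).1 hm).1⟩
    intro h4
    exact h3 (by rw [← Fin.ext h4]; exact hi)
  · rintro ⟨h1, h2⟩
    have h3 : q ∉ s := fun h => ((xor_pow_bit hq _).1 (h1 q h)).2 rfl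
    refine ⟨⟨fun i hi => ((xor_pow_bit hq _).1 (h1 i hi)).1, fun m hm h => ?_⟩, h3⟩
    cases hmq : m.testBit q with
    | false => exact h2 m ((hR m).2 ⟨hm, hmq⟩) h
    | true => exact h3 (h q hmq)

theorem lk_nfc {S X : ℕ} {N P P' R L : List ℕ} {q : Fin 20} (hq : S.testBit q = true)
    (hN : ∀ m ∈ N, MOK m)
    (hX : ∀ i, X.testBit i = true ↔ ∃ m ∈ N, m.testBit q = true ∧
        One (Nat.xor m (Nat.pow 2 q)) ∧ (Nat.xor m (Nat.pow 2 q)).testBit i = true)
    (hP : ∀ p, p ∈ P ↔ ∃ m ∈ N, m.testBit q = true ∧ p = Nat.xor m (Nat.pow 2 q) ∧ ¬ One p)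
    (hR : ∀ r, r ∈ R ↔ (r ∈ N ∧ r.testBit q = false))
    (h0 : ∀ m ∈ N, m.testBit q = true → Nat.xor m (Nat.pow 2 q) ≠ 0)
    (hP' : ∀ m, m ∈ P' ↔ (m ∈ P ∧ Nat.land m X = 0))
    (hL : ∀ m, m ∈ L ↔ m ∈ P' ∨ (m ∈ R ∧ Nat.land m X = 0 ∧ ¬ ∃ p ∈ P, Nat.land p m = p)) :
    lk (nfc 20 S N) q = nfc 20 (Nat.xor (Nat.xor S (Nat.pow 2 q))
      (Nat.land (Nat.xor S (Nat.pow 2 q)) X)) L := by
  have hXbit : ∀ i, X.testBit i = true → i < 20 := by
    intro i hi
    obtain ⟨m, hm, h1, -, h2⟩ := (hX i).1 hi
    rw [xor_pow_bit h1] at h2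
    exact bit_lt (hN m hm).1 h2.1
  have hPlt : ∀ p ∈ P, p < 1048576 := by
    intro p hp
    obtain ⟨m, hm, h1, rfl, -⟩ := (hP p).1 hp
    exact xor_pow_lt (hN m hm).1 h1
  have hmeet : ∀ (m : ℕ) (s : Finset (Fin 20)), m < 1048576 → Nat.land m X ≠ 0 →
      (∀ i : Fin 20, X.testBit i = true → i ∉ s) →
      ¬ ∀ i : Fin 20, m.testBit i = true → i ∈ s := by
    intro m s hm h1 h2 h3
    apply h1
    rw [land_eq_zero_iff]
    intro i hi
    by_contra h4
    have h5 : X.testBit i = true := by simpa using h4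
    have h6 : i < 20 := bit_lt hm hi
    exact h2 ⟨i, h6⟩ h5 (h3 ⟨i, h6⟩ hi)
  ext s
  constructor
  · rintro ⟨h1, h2, h3⟩
    have hs : ∀ i : Fin 20, X.testBit i = true → i ∉ s := by
      intro i hi his
      obtain ⟨m, hm, g1, g2, g3⟩ := (hX i).1 hi
      apply h3 m hm
      rw [sub_insert g1 h1]
      intro j hj
      have : (j : ℕ) = i := one_bit g2 hj g3
      rw [Fin.ext this]
      exact his
    refine ⟨fun i hi => ?_, fun m hm h => ?_⟩
    · rw [xor_land_bit, xor_pow_bit hq]
      refine ⟨⟨h2 i (Finset.mem_insert_of_mem hi), fun h4 => h1 (by rw [← Fin.ext h4]; exact hi)⟩, ?_⟩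
      by_contra h4
      exact hs i (by simpa using h4) hi
    · rcases (hL m).1 hm with h4 | ⟨h4, -, -⟩
      · obtain ⟨m', hm', g1, rfl, -⟩ := (hP m).1 ((hP' m).1 h4).1
        exact h3 m' hm' ((sub_insert g1 h1).2 h)
      · obtain ⟨g1, g2⟩ := (hR m).1 h4
        exact h3 m g1 ((sub_insert' g2).2 h)
  · rintro ⟨h1, h2⟩
    have hbit : ∀ i ∈ s, (S.testBit i = true ∧ (i : ℕ) ≠ q) ∧ X.testBit i = false := by
      intro i hi
      have := h1 i hi
      rwa [xor_land_bit, xor_pow_bit hq] at this
    have hqs : q ∉ s := fun h => (hbit q h).1.2 rfl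
    have hs : ∀ i : Fin 20, X.testBit i = true → i ∉ s := by
      intro i hi his
      rw [(hbit i his).2] at hi
      exact absurd hi (by decide)
    have hP2 : ∀ p ∈ P, ¬ ∀ i : Fin 20, p.testBit i = true → i ∈ s := by
      intro p hp
      by_cases h3 : Nat.land p X = 0
      · exact h2 p ((hL p).2 (Or.inl ((hP' p).2 ⟨hp, h3⟩)))
      · exact hmeet p s (hPlt p hp) h3 hs
    refine ⟨hqs, fun i hi => ?_, fun m hm h => ?_⟩
    · rcases Finset.mem_insert.1 hi with h3 | h3
      · rw [h3]
        exact hq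
      · exact (hbit i h3).1.1
    · cases hmq : m.testBit q with
      | false =>
        rw [sub_insert' hmq] at h
        have hmR : m ∈ R := (hR m).2 ⟨hm, hmq⟩
        by_cases h3 : Nat.land m X = 0
        · by_cases h4 : ∃ p ∈ P, Nat.land p m = p
          · obtain ⟨p, hp, h5⟩ := h4
            rw [land_eq_iff] at h5
            exact hP2 p hp fun i hi => h i (h5 i hi)
          · exact h2 m ((hL m).2 (Or.inr ⟨hmR, h3, h4⟩)) h
        · exact hmeet m s (hN m hm).1 h3 hs h
      | true =>
        rw [sub_insert hmq hqs] at h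
        by_cases ho : One (Nat.xor m (Nat.pow 2 q))
        · obtain ⟨i, hi⟩ := exists_bit (h0 m hm hmq)
          have h3 : i < 20 := bit_lt (xor_pow_lt (hN m hm).1 hmq) hi
          exact hs ⟨i, h3⟩ ((hX i).2 ⟨m, hm, hmq, ho, hi⟩) (h ⟨i, h3⟩ hi)
        · exact hP2 _ ((hP _).2 ⟨m, hm, hmq, rfl, ho⟩) h

end Y1

/-! ### TY-1: soundness of the parity checker -/
theorem filt_sound (S : ℕ) (N : List ℕ) (k : List ℕ → Bool) (h : Pa.filt S N [] k = true) :
    ∃ N', k N' = true ∧ ∀ m, m ∈ N' ↔ m ∈ N ∧ Nat.land m S = m := by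
  obtain ⟨N', h1, h2⟩ := Y1.filt_aux S N [] k h
  exact ⟨N', h1, fun m => by rw [h2 m]; simp⟩

theorem ck_sound (F : Type) [Field F] (D fuel : ℕ) (b : Bool) (S : ℕ) (N : List ℕ) (pos : ℕ)
    (k : ℕ → Bool) (hS : S < 1048576) (hN : ∀ m ∈ N, MOK m) (h : Pa.ck D fuel b S N pos k = true) :
    (∃ pos', k pos' = true) ∧ (b = false → Par0 F (Real (nfc 20 S N))) ∧
      (b = true → Par1 F (Real (nfc 20 S N))) := by
  induction fuel generalizing b S N pos k with
  | zero => exact absurd h (by change ¬ (false = true); decide)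
  | succ fuel ih =>
    have h' : @Bool.rec (fun _ => Bool)
        (@Bool.rec (fun _ => Bool)
          (k pos)
          (@Bool.rec (fun _ => Bool)
            false
            (Pa.lnk (Pa.ent5 D pos) N 0 [] [] fun X P R => Pa.cleanP X P [] fun P' => Pa.cleanR X P R P' fun L =>
              @Bool.rec (fun _ => Bool)
                (Pa.ck D fuel (Bool.not b)
                  (Nat.xor (Nat.xor S (Nat.pow 2 (Pa.ent5 D pos))) (Nat.land (Nat.xor S (Nat.pow 2 (Pa.ent5 D pos))) X))
                  L (Nat.succ pos) fun pos' => Pa.ck D fuel b (Nat.xor S (Nat.pow 2 (Pa.ent5 D pos))) R pos' k)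
                false
                (Bool.and b (Nat.beq
                  (Nat.xor (Nat.xor S (Nat.pow 2 (Pa.ent5 D pos))) (Nat.land (Nat.xor S (Nat.pow 2 (Pa.ent5 D pos))) X)) 0)))
            (Nat.testBit S (Pa.ent5 D pos)))
          (Nat.beq (Nat.land S (Pa.orL N)) S))
        (k pos)
        (Nat.beq S 0) = true := h
    rw [Ce.brec_iff, Ce.brec_iff] at h'
    by_cases hS0 : S = 0
    · have hk := h'.1 ((Ce.beq_iff _ _).2 hS0)
      have he : ∀ s ∈ nfc 20 S N, s = ∅ := by
        rintro s ⟨h1, -⟩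
        rw [Finset.eq_empty_iff_forall_notMem]
        intro i hi
        have := h1 i hi
        rw [hS0, Nat.zero_testBit] at this
        exact absurd this (by decide)
      obtain ⟨g1, g2⟩ := par_empty F _ he
      exact ⟨⟨pos, hk⟩, fun _ => g1, fun _ => g2⟩
    · have hb : Nat.beq S 0 = false := by
        by_contra hb
        exact hS0 ((Ce.beq_iff _ _).1 (by simpa using hb))
      have h1 := h'.2 hb
      by_cases hO : Nat.land S (Pa.orL N) = S
      · have h2 := h1.1 ((Ce.beq_iff _ _).2 hO)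
        rw [Ce.brec_false_iff] at h2
        obtain ⟨hq, h3⟩ := h2
        have hq20 : Pa.ent5 D pos < 20 := Y1.bit_lt hS hq
        obtain ⟨X, P, R, h4, hX, hP, hR, h0⟩ := Y1.lnk_aux _ _ _ _ _ _ h3
        obtain ⟨P', h5, hP'⟩ := Y1.cleanP_aux _ _ _ _ h4
        obtain ⟨L, h6, hL⟩ := Y1.cleanR_aux _ _ _ _ _ h5
        have hX' : ∀ i, X.testBit i = true ↔ ∃ m ∈ N, m.testBit (Pa.ent5 D pos) = true ∧
            Y1.One (Nat.xor m (Nat.pow 2 (Pa.ent5 D pos))) ∧
            (Nat.xor m (Nat.pow 2 (Pa.ent5 D pos))).testBit i = true := fun i => by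
          rw [hX i, Nat.zero_testBit]; simp
        have hP2 : ∀ p, p ∈ P ↔ ∃ m ∈ N, m.testBit (Pa.ent5 D pos) = true ∧
            p = Nat.xor m (Nat.pow 2 (Pa.ent5 D pos)) ∧ ¬ Y1.One p := fun p => by
          rw [hP p]; simp
        have hR2 : ∀ r, r ∈ R ↔ (r ∈ N ∧ r.testBit (Pa.ent5 D pos) = false) := fun r => by
          rw [hR r]; simp
        have hP3 : ∀ m, m ∈ P' ↔ (m ∈ P ∧ Nat.land m X = 0) := fun m => by
          rw [hP' m]; simp
        have hlk := Y1.lk_nfc (q := ⟨Pa.ent5 D pos, hq20⟩) hq hN hX' hP2 hR2 h0 hP3 hL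
        have hdel := Y1.del_nfc (q := ⟨Pa.ent5 D pos, hq20⟩) hq hR2
        simp only at hlk hdel
        have hRok : ∀ m ∈ R, MOK m := fun m hm => hN m ((hR2 m).1 hm).1
        have hPok : ∀ m ∈ P, MOK m := by
          intro p hp
          obtain ⟨m, hm, g1, g2, g3⟩ := (hP2 p).1 hp
          exact ⟨by rw [g2]; exact Y1.xor_pow_lt (hN m hm).1 g1, Nat.pos_of_ne_zero g3⟩
        have hLok : ∀ m ∈ L, MOK m := by
          intro m hm
          rcases (hL m).1 hm with g | g
          · exact hPok m ((hP3 m).1 g).1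
          · exact hRok m g.1
        have hSlt := Y1.xor_pow_lt hS hq
        have hSlt' : Nat.xor (Nat.xor S (Nat.pow 2 (Pa.ent5 D pos)))
            (Nat.land (Nat.xor S (Nat.pow 2 (Pa.ent5 D pos))) X) < 1048576 := Y1.xor_land_lt hSlt
        have hbb : (Bool.and b (Nat.beq (Nat.xor (Nat.xor S (Nat.pow 2 (Pa.ent5 D pos)))
            (Nat.land (Nat.xor S (Nat.pow 2 (Pa.ent5 D pos))) X)) 0)) = false := by
          by_contra hc
          rw [Ce.brec_iff] at h6
          exact absurd (h6.1 (by simpa using hc)) (by decide)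
        rw [hbb] at h6
        obtain ⟨⟨pos', g1⟩, g2, g3⟩ := ih _ _ _ _ _ hSlt' hLok h6
        obtain ⟨g4, g5, g6⟩ := ih _ _ _ _ _ hSlt hRok g1
        rw [← hlk] at g2 g3
        rw [← hdel] at g5 g6
        have hdc := Y1.nfc_down S N
        have hsm : ({(⟨Pa.ent5 D pos, hq20⟩ : Fin 20)} : Finset (Fin 20)) ∈ nfc 20 S N :=
          Y1.single_mem hN hq
        refine ⟨g4, ?_, ?_⟩
        · intro hb0
          rw [hb0] at g3 g5
          exact (par0_step F _ _ hdc hsm (g3 rfl) (g5 rfl)).1
        · intro hb1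
          rw [hb1] at g2 g6 hbb
          have hne : Nat.xor (Nat.xor S (Nat.pow 2 (Pa.ent5 D pos)))
              (Nat.land (Nat.xor S (Nat.pow 2 (Pa.ent5 D pos))) X) ≠ 0 := by
            intro h8
            rw [h8] at hbb
            exact absurd hbb (by decide)
          have hnon : Nonempty (Real (lk (nfc 20 S N) ⟨Pa.ent5 D pos, hq20⟩)) := by
            rw [hlk]
            obtain ⟨i, hi⟩ := Y1.exists_bit hne
            exact Y1.real_nonempty (v := ⟨i, Y1.bit_lt hSlt' hi⟩) (Y1.single_mem hLok hi)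
          exact par1_step F _ _ hdc hsm (g2 rfl) hnon (g6 rfl)
      · have hbO : Nat.beq (Nat.land S (Pa.orL N)) S = false := by
          by_contra hb
          exact hO ((Ce.beq_iff _ _).1 (by simpa using hb))
        have hk := h1.2 hbO
        have hr : ∃ r, S.testBit r = true ∧ (Pa.orL N).testBit r = false := by
          by_contra hc
          apply hO
          rw [Y1.land_eq_iff]
          intro i hi
          by_contra h2
          exact hc ⟨i, hi, by simpa using h2⟩
        obtain ⟨r, hr1, hr2⟩ := hr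
        have hr20 : r < 20 := Y1.bit_lt hS hr1
        have hrm : ∀ m ∈ N, m.testBit r = false := by
          intro m hm
          by_contra h2
          have h3 : (Pa.orL N).testBit r = true := (Y1.orL_bit N r).2 ⟨m, hm, by simpa using h2⟩
          rw [hr2] at h3
          exact absurd h3 (by decide)
        obtain ⟨g1, g2⟩ := par_cone F (nfc 20 S N) ⟨r, hr20⟩ (Y1.nfc_down S N)
          (Y1.single_mem hN hr1) (by
            rintro s ⟨g1, g2⟩
            refine ⟨fun i hi => ?_, fun m hm g => ?_⟩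
            · rcases Finset.mem_insert.1 hi with g3 | g3
              · rw [g3]
                exact hr1
              · exact g1 i g3
            · exact g2 m hm ((Y1.sub_insert' (q := ⟨r, hr20⟩) (hrm m hm)).1 g))
        exact ⟨⟨pos, hk⟩, fun _ => g1, fun _ => g2⟩

end Pool.Agent.helper73.TC
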